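import Pool.Agent.H90.DeltaWye.Concrete

/-!
# The two schemes, their idempotents and their Delta-Wye parameters
-/

set_option autoImplicit false

open Finset Matrix

namespace Pool.Agent.H90.DeltaWye

/-- The (self-dual) eigenmatrix. -/
def Qz (r i : Fin 4) : ℤ := (![![1, 1, 1, 1], ![6, 2, -2, -2], ![3, -1, 3, -1], ![6, -2, -2, 2]] :
  Fin 4 → Fin 4 → ℤ) r i

/-- The scheme with relation `rel` and intersection numbers `pp`. -/
def mkS (rel : Fin 16 → Fin 16 → Fin 4) (h0 : ∀ x y, rel x y = 0 ↔ x = y)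
    (hc : ∀ x y, rel x y = rel y x) (hne : ∀ i, ∃ x y, rel x y = i)
    (hcard : ∀ i j x y, (univ.filter (fun z => rel x z = i ∧ rel z y = j)).card =
      pp i j (rel x y)) : Scheme (Fin 16) 3 where
  rel := rel
  rel_eq_zero := h0
  rel_comm := hc
  rel_nonempty := hne
  p := pp
  card_eq := by
    intro i j k x y h
    rw [← h]
    exact hcard i j x y

/-- The idempotents. -/
noncomputable def Em (rel : Fin 16 → Fin 16 → Fin 4) (r : Fin 4) : Matrix (Fin 16) (Fin 16) ℝ :=
  fun x y => (Qz r (rel x y) : ℝ) / 16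

lemma Q_mul : ∀ r s k : Fin 4, ∑ i : Fin 4, ∑ j : Fin 4, Qz r i * Qz s j * (pp i j k : ℤ) =
    if r = s then 16 * Qz r k else 0 := by decide +kernel

lemma Q_krein : ∀ i j c : Fin 4, Qz i c * Qz j c = ∑ k : Fin 4, (pp i j k : ℤ) * Qz k c := by
  decide +kernel

lemma Q_sum : ∀ c : Fin 4, ∑ r : Fin 4, Qz r c = if c = 0 then 16 else 0 := by decide +kernel

lemma Q_zero : ∀ c : Fin 4, Qz 0 c = 1 := by decide +kernel

lemma Q_diag : ∀ r : Fin 4, Qz r 0 ≠ 0 := by decide +kernel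

section

variable (rel : Fin 16 → Fin 16 → Fin 4) (h0 : ∀ x y, rel x y = 0 ↔ x = y)
    (hc : ∀ x y, rel x y = rel y x) (hne : ∀ i, ∃ x y, rel x y = i)
    (hcard : ∀ i j x y, (univ.filter (fun z => rel x z = i ∧ rel z y = j)).card =
      pp i j (rel x y))

include hcard in
lemma sum_rel (f : Fin 4 → Fin 4 → ℤ) (x y : Fin 16) :
    ∑ z, f (rel x z) (rel z y) = ∑ i, ∑ j, f i j * (pp i j (rel x y) : ℤ) := by
  have h1 : ∀ z, f (rel x z) (rel z y) =
      ∑ i, ∑ j, if rel x z = i ∧ rel z y = j then f i j else 0 := by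
    intro z
    rw [sum_eq_single (rel x z)]
    · rw [sum_eq_single (rel z y)]
      · simp
      · intro j _ hj
        rw [if_neg]
        exact fun h => hj h.2.symm
      · simp
    · intro i _ hi
      apply sum_eq_zero
      intro j _
      rw [if_neg]
      exact fun h => hi h.1.symm
    · simp
  simp only [h1]
  rw [sum_comm]
  refine sum_congr rfl fun i _ => ?_
  rw [sum_comm]
  refine sum_congr rfl fun j _ => ?_
  rw [← sum_filter, sum_const, hcard, nsmul_eq_mul, mul_comm]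

include hcard in
lemma Em_mul (r s : Fin 4) : Em rel r * Em rel s = if r = s then Em rel r else 0 := by
  ext x y
  rw [Matrix.mul_apply]
  unfold Em
  have h1 : ∑ z, (Qz r (rel x z) : ℝ) / 16 * ((Qz s (rel z y) : ℝ) / 16) =
      ((∑ z, Qz r (rel x z) * Qz s (rel z y) : ℤ) : ℝ) / 256 := by
    push_cast
    rw [sum_div]
    exact sum_congr rfl fun z _ => by ring
  rw [h1, sum_rel rel hcard (fun i j => Qz r i * Qz s j), Q_mul]
  split_ifs with h
  · push_cast
    ring
  · simp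

lemma Em_eq (r : Fin 4) : Em rel r =
    ∑ i, ((Qz r i : ℝ) / 16) • (mkS rel h0 hc hne hcard).A i := by
  ext x y
  simp only [Matrix.sum_apply, Matrix.smul_apply, Scheme.A, smul_eq_mul, mul_ite, mul_one, mul_zero]
  rw [sum_ite_eq univ]
  simp [Em, mkS]

lemma Em_idem : (mkS rel h0 hc hne hcard).IsPrimitiveIdempotents (Em rel) := by
  refine ⟨?_, ?_, ?_, ?_, ?_, ?_⟩
  · intro r
    rw [Em_eq rel h0 hc hne hcard]
    exact Submodule.sum_mem _ fun i _ => Submodule.smul_mem _ _ (Scheme.A_mem _ i)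
  · intro r h
    have h1 := congrFun (congrFun h 0) 0
    unfold Em at h1
    rw [(h0 0 0).mpr rfl] at h1
    have h2 := Q_diag r
    have h3 : ((Qz r 0 : ℤ) : ℝ) ≠ 0 := by exact_mod_cast h2
    apply h3
    have h4 : ((Qz r 0 : ℤ) : ℝ) / 16 = 0 := h1
    linarith
  · intro r
    rw [Em_mul rel hcard, if_pos rfl]
  · intro r s h
    rw [Em_mul rel hcard, if_neg h]
  · ext x y
    rw [Matrix.sum_apply]
    unfold Em
    rw [← sum_div]
    have h1 : ∑ r, (Qz r (rel x y) : ℝ) = ((∑ r, Qz r (rel x y) : ℤ) : ℝ) := by push_cast; rfl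
    rw [h1, Q_sum, Matrix.one_apply]
    by_cases h : x = y
    · rw [if_pos ((h0 x y).mpr h), if_pos h]
      norm_num
    · rw [if_neg (fun h2 => h ((h0 x y).mp h2)), if_neg h]
      norm_num
  · funext x y
    unfold Em
    rw [Q_zero]
    simp

/-- The Krein parameters, equal to the intersection numbers. -/
def qq (i j k : Fin 4) : ℝ := (pp i j k : ℝ)

lemma Em_krein : (mkS rel h0 hc hne hcard).IsKrein (Em rel) qq := by
  intro i j
  ext x y
  rw [Matrix.hadamard_apply, Matrix.smul_apply, Matrix.sum_apply]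
  simp only [Matrix.smul_apply, smul_eq_mul, Em, qq, Fintype.card_fin]
  have h1 := Q_krein i j (rel x y)
  have h2 : (Qz i (rel x y) : ℝ) * (Qz j (rel x y) : ℝ) =
      ∑ k : Fin 4, (pp i j k : ℝ) * (Qz k (rel x y) : ℝ) := by
    exact_mod_cast h1
  have h3 : ∑ k : Fin (3 + 1), (pp i j k : ℝ) * ((Qz k (rel x y) : ℝ) / 16) =
      (∑ k : Fin 4, (pp i j k : ℝ) * (Qz k (rel x y) : ℝ)) / 16 := by
    rw [sum_div]
    exact sum_congr rfl fun k _ => by ring
  rw [h3, ← h2]
  push_cast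
  ring

lemma etr (f : Fin 4 → Fin 4 → Fin 4 → Multiset (Fin 4 × Fin 4 × Fin 4))
    (h4 : ∀ x y z, tri rel x y z = f (rel x z) (rel x y) (rel y z)) :
    (mkS rel h0 hc hne hcard).ExactlyTriplyRegular ∧
      ∃ σ, (mkS rel h0 hc hne hcard).IsDeltaWye (Em rel) qq σ := by
  apply Scheme.criterion _ (Em_idem rel h0 hc hne hcard) (Em_krein rel h0 hc hne hcard)
  · apply Scheme.wye_le_delta
    intro x y z x' y' z' e1 e2 e3
    have e1' : rel x z = rel x' z' := e1
    have e2' : rel x y = rel x' y' := e2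
    have e3' : rel y z = rel y' z' := e3
    have g1 : (mkS rel h0 hc hne hcard).tri x y z = f (rel x z) (rel x y) (rel y z) := h4 x y z
    have g2 : (mkS rel h0 hc hne hcard).tri x' y' z' = f (rel x' z') (rel x' y') (rel y' z') :=
      h4 x' y' z'
    rw [g1, g2, e1', e2', e3']
  · rw [← Nat.card_eq_fintype_card]
    apply le_of_eq
    apply Nat.card_congr
    apply Equiv.subtypeEquivRight
    intro m
    simp [mkS, qq]

lemma B_eq (i j k r s t : Fin 4) :
    B (Delta ((mkS rel h0 hc hne hcard).A i) ((mkS rel h0 hc hne hcard).A j)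
      ((mkS rel h0 hc hne hcard).A k)) (Wye (Em rel r) (Em rel s) (Em rel t)) =
    ((∑ x, ∑ y, ∑ z, (if rel x z = i ∧ rel x y = j ∧ rel y z = k then
      ∑ u, Qz r (rel x u) * Qz s (rel y u) * Qz t (rel z u) else 0) : ℤ) : ℂ) / 4096 := by
  unfold B
  rw [Fintype.sum_prod_type]
  simp only [Fintype.sum_prod_type, Scheme.delta_A_apply]
  push_cast
  rw [sum_div]
  refine sum_congr rfl fun x _ => ?_
  rw [sum_div]
  refine sum_congr rfl fun y _ => ?_
  rw [sum_div]
  refine sum_congr rfl fun z _ => ?_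
  have hr : ∀ x y, (mkS rel h0 hc hne hcard).rel x y = rel x y := fun _ _ => rfl
  rw [hr, hr, hr]
  split_ifs with h
  · rw [one_mul]
    unfold Wye Em
    rw [sum_div]
    refine sum_congr rfl fun u _ => ?_
    push_cast
    ring
  · simp

include h0 in
lemma trace_Em_one : (Em rel 1).trace = 6 := by
  have h1 : ∀ x, rel x x = 0 := fun x => (h0 x x).mpr rfl
  simp only [Matrix.trace, Matrix.diag_apply, Em, h1]
  rw [sum_const]
  simp [Qz]
  norm_num

lemma sigma_val {σ : Fin 4 → Fin 4 → Fin 4 → Fin 4 → Fin 4 → Fin 4 → ℂ}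
    (hσ : (mkS rel h0 hc hne hcard).IsDeltaWye (Em rel) qq σ) {n : ℤ}
    (hn : ∑ x, ∑ y, ∑ z, (if rel x z = 1 ∧ rel x y = 1 ∧ rel y z = 1 then
      ∑ u, Qz 1 (rel x u) * Qz 1 (rel y u) * Qz 1 (rel z u) else 0) = n) :
    σ 1 1 1 1 1 1 = n / 3072 := by
  have hp : (mkS rel h0 hc hne hcard).p 1 1 1 = 2 := by
    show pp 1 1 1 = 2
    decide +kernel
  have hq : qq 1 1 1 = 2 := by
    have : pp 1 1 1 = 2 := by decide +kernel
    simp [qq, this]
  have h1 := Scheme.deltaWye_unique _ (Em_idem rel h0 hc hne hcard) (Em_krein rel h0 hc hne hcard)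
    hσ (i := 1) (j := 1) (k := 1) (r := 1) (s := 1) (t := 1) (by rw [hp]; norm_num)
    (by rw [hq]; norm_num)
  rw [B_eq, hn, trace_Em_one rel h0, hq] at h1
  have h2 : (((1 : ℝ) / (Fintype.card (Fin 16) : ℝ) * 2 * 6 : ℝ) : ℂ) = 3 / 4 := by
    rw [Fintype.card_fin]
    push_cast
    norm_num
  rw [h2] at h1
  linear_combination (-4 / 3 : ℂ) * h1

end

lemma relA_nonempty : ∀ i, ∃ x y, relA x y = i := by decide +kernel

lemma relB_nonempty : ∀ i, ∃ x y, relB x y = i := by decide +kernel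

lemma sumA : ∑ x, ∑ y, ∑ z, (if relA x z = 1 ∧ relA x y = 1 ∧ relA y z = 1 then
      ∑ u, Qz 1 (relA x u) * Qz 1 (relA y u) * Qz 1 (relA z u) else 0) = 24576 := by
  decide +kernel

lemma sumB : ∑ x, ∑ y, ∑ z, (if relB x z = 1 ∧ relB x y = 1 ∧ relB y z = 1 then
      ∑ u, Qz 1 (relB x u) * Qz 1 (relB y u) * Qz 1 (relB z u) else 0) = 12288 := by
  decide +kernel

end Pool.Agent.H90.DeltaWye
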