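import Pool.Agent.H90.DeltaWye.Theory

/-!
# Two exactly triply regular schemes on 16 points
-/

set_option autoImplicit false

open Finset Matrix

namespace Pool.Agent.H90.DeltaWye

/-- Entry `n` of a table of elements of `Fin 4`. -/
def cls (tab n : ℕ) : Fin 4 := ⟨(tab >>> (2 * n)) % 4, Nat.mod_lt _ (by decide)⟩

/-- The relation on `Z_2^4` (written in binary). With `Z_2^4 = F_4 × F_4` the class of `(a, b) ≠ 0`
is `1` if `a = 0` or `b = 0`, `2` if `a = b`, and `3` otherwise. -/
def relA (x y : Fin 16) : Fin 4 := cls 0xbdedf954 (x.val ^^^ y.val)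

/-- The difference in `Z_4 × Z_4`, where `(a, b)` is coded by `4 a + b`. -/
def subB (x y : ℕ) : ℕ := 4 * ((x / 4 + 4 - y / 4) % 4) + ((x % 4 + 4 - y % 4) % 4)

/-- The relation on `Z_4 × Z_4`: class `1` is `±(0,1), ±(1,0), ±(1,1)` (the Shrikhande graph),
class `2` consists of the three involutions. -/
def relB (x y : Fin 16) : Fin 4 := cls 0x7deef564 (subB x.val y.val)

/-- The intersection numbers of both schemes. -/
def pp (i j k : Fin 4) : ℕ :=
  (0x2226102024201000102002032010010024202010222600101000010000100001 >>>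
    (4 * (16 * i.val + 4 * j.val + k.val))) % 16

set_option maxRecDepth 100000 in
lemma relA_zero : ∀ x y, relA x y = 0 ↔ x = y := by decide +kernel

set_option maxRecDepth 100000 in
lemma relB_zero : ∀ x y, relB x y = 0 ↔ x = y := by decide +kernel

lemma relA_comm : ∀ x y, relA x y = relA y x := by decide +kernel

lemma relB_comm : ∀ x y, relB x y = relB y x := by decide +kernel

lemma relA_card : ∀ i j x y, (univ.filter (fun z => relA x z = i ∧ relA z y = j)).card =
    pp i j (relA x y) := by decide +kernel

lemma relB_card : ∀ i j x y, (univ.filter (fun z => relB x z = i ∧ relB z y = j)).card =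
    pp i j (relB x y) := by decide +kernel

/-- The multiset of the relations of `x`, `y`, `z` to all points. -/
def tri (rel : Fin 16 → Fin 16 → Fin 4) (x y z : Fin 16) : Multiset (Fin 4 × Fin 4 × Fin 4) :=
  (univ : Finset (Fin 16)).val.map fun u => (rel x u, rel y u, rel z u)

/-- A table of pairs `(a, b)` indexed by the type of `(0, a, b)`. -/
def rep (tab : ℕ) (i j k : Fin 4) : ℕ :=
  (tab >>> (8 * (16 * i.val + 4 * j.val + k.val))) % 256

def repA (i j k : Fin 4) : ℕ := rep
  0x6b6967665b005600161b1900060000006f006500005a00551a001500000500006163620052005100181412110000010060000000005000000000100000000000 i j k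

def repB (i j k : Fin 4) : ℕ := rep
  0x696e6766290026001719160006000000680062000028002218001200000200006364610024002100141315110000010060000000002000000000100000000000 i j k

def fst (n : ℕ) : Fin 16 := ⟨(n / 16) % 16, Nat.mod_lt _ (by decide)⟩

def snd (n : ℕ) : Fin 16 := ⟨n % 16, Nat.mod_lt _ (by decide)⟩

lemma triA_zero : ∀ a b, tri relA 0 a b = tri relA 0
    (fst (repA (relA 0 b) (relA 0 a) (relA a b))) (snd (repA (relA 0 b) (relA 0 a) (relA a b))) := by
  decide +kernel

lemma triB_zero : ∀ a b, tri relB 0 a b = tri relB 0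
    (fst (repB (relB 0 b) (relB 0 a) (relB a b))) (snd (repB (relB 0 b) (relB 0 a) (relB a b))) := by
  decide +kernel

/-- Translations. -/
def addA (w x : Fin 16) : Fin 16 := ⟨(w.val ^^^ x.val) % 16, Nat.mod_lt _ (by decide)⟩

def addB (w x : Fin 16) : Fin 16 :=
  ⟨4 * ((w.val / 4 + x.val / 4) % 4) + ((w.val % 4 + x.val % 4) % 4), by omega⟩

lemma relA_add : ∀ w x y, relA (addA w x) (addA w y) = relA x y := by decide +kernel

lemma relB_add : ∀ w x y, relB (addB w x) (addB w y) = relB x y := by decide +kernel

lemma addA_inj : ∀ w x y, addA w x = addA w y → x = y := by decide +kernel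

lemma addB_inj : ∀ w x y, addB w x = addB w y → x = y := by decide +kernel

lemma addA_zero : ∀ w, addA w 0 = w := by decide +kernel

lemma addB_zero : ∀ w, addB w 0 = w := by decide +kernel

lemma tri_eq (rel : Fin 16 → Fin 16 → Fin 4) (add : Fin 16 → Fin 16 → Fin 16)
    (h1 : ∀ w x y, rel (add w x) (add w y) = rel x y)
    (h2 : ∀ w x y, add w x = add w y → x = y) (h3 : ∀ w, add w 0 = w)
    (f : Fin 4 → Fin 4 → Fin 4 → Multiset (Fin 4 × Fin 4 × Fin 4))
    (h4 : ∀ a b, tri rel 0 a b = f (rel 0 b) (rel 0 a) (rel a b)) (x y z : Fin 16) :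
    tri rel x y z = f (rel x z) (rel x y) (rel y z) := by
  have hinj : ∀ w, Function.Injective (add w) := fun w x y => h2 w x y
  have hsurj : ∀ w, Function.Surjective (add w) := fun w => Finite.surjective_of_injective (hinj w)
  obtain ⟨a, rfl⟩ := hsurj x y
  obtain ⟨b, rfl⟩ := hsurj x z
  have e1 : ∀ c, rel x (add x c) = rel 0 c := by
    intro c
    conv_lhs => rw [← h3 x]
    rw [h3 x, ← h1 x 0 c, h3]
  have e2 : tri rel x (add x a) (add x b) = tri rel 0 a b := by
    unfold tri
    have e3 : (univ : Finset (Fin 16)).val =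
        (univ : Finset (Fin 16)).val.map (add x) := by
      have := Finset.map_univ_equiv (Equiv.ofBijective (add x) ⟨hinj x, hsurj x⟩)
      have h5 := congrArg Finset.val this
      rw [Finset.map_val] at h5
      exact h5.symm
    conv_lhs => rw [e3]
    rw [Multiset.map_map]
    apply Multiset.map_congr rfl
    intro u _
    simp only [Function.comp_apply]
    rw [e1, h1, h1]
  rw [e2, h4, e1, e1, h1]

end Pool.Agent.H90.DeltaWye
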