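import Mathlib

/-!
# Symmetric association schemes, Delta and Wye tensors, Delta-Wye parameters

Definitions used by the hand-in `MP_711634_co.DeltaWyeDiffer`.
-/

set_option autoImplicit false

open Finset Matrix

namespace Pool.Agent.H90.DeltaWye

/-- A `d`-class symmetric association scheme on the finite set `X`: the relation containing the
pair `(x, y)` is `R_i` with `i = rel x y`. The relations `R_0, …, R_d` are nonempty and symmetric,
`R_0` is the diagonal, and `p i j k` is the number of `z` with `(x, z) ∈ R_i` and `(z, y) ∈ R_j`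
whenever `(x, y) ∈ R_k`. -/
structure Scheme (X : Type) [Fintype X] [DecidableEq X] (d : ℕ) where
  /-- The index of the relation which contains the pair. -/
  rel : X → X → Fin (d + 1)
  /-- `R_0` is the diagonal. -/
  rel_eq_zero : ∀ x y, rel x y = 0 ↔ x = y
  /-- The relations are symmetric. -/
  rel_comm : ∀ x y, rel x y = rel y x
  /-- The relations are nonempty. -/
  rel_nonempty : ∀ i, ∃ x y, rel x y = i
  /-- The intersection numbers. -/
  p : Fin (d + 1) → Fin (d + 1) → Fin (d + 1) → ℕ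
  /-- The defining property of the intersection numbers. -/
  card_eq : ∀ i j k x y, rel x y = k →
    (univ.filter (fun z => rel x z = i ∧ rel z y = j)).card = p i j k

/-- The tensor `Δ(L, M, N) = ∑_{x,y,z} L_{xz} M_{xy} N_{yz} x̂ ⊗ ŷ ⊗ ẑ`, as the array of its
coefficients. -/
def Delta {X : Type} (L M N : Matrix X X ℝ) : X × X × X → ℂ :=
  fun w => (L w.1 w.2.2 : ℂ) * (M w.1 w.2.1 : ℂ) * (N w.2.1 w.2.2 : ℂ)

/-- The tensor `Y(L, M, N) = ∑_{x,y,z,u} L_{xu} M_{yu} N_{zu} x̂ ⊗ ŷ ⊗ ẑ`, as the array of its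
coefficients. -/
def Wye {X : Type} [Fintype X] (L M N : Matrix X X ℝ) : X × X × X → ℂ :=
  fun w => ∑ u, (L w.1 u : ℂ) * (M w.2.1 u : ℂ) * (N w.2.2 u : ℂ)

namespace Scheme

variable {X : Type} [Fintype X] [DecidableEq X] {d : ℕ}

/-- The adjacency matrix of `R_i`. -/
def A (S : Scheme X d) (i : Fin (d + 1)) : Matrix X X ℝ :=
  fun x y => if S.rel x y = i then 1 else 0

/-- The Bose-Mesner algebra: the real span of the adjacency matrices. -/
def BM (S : Scheme X d) : Submodule ℝ (Matrix X X ℝ) := Submodule.span ℝ (Set.range S.A)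

/-- The span of the tensors `Δ(L, M, N)` with `L`, `M`, `N` in the Bose-Mesner algebra. -/
def deltaSpan (S : Scheme X d) : Submodule ℂ (X × X × X → ℂ) :=
  Submodule.span ℂ {T | ∃ L ∈ S.BM, ∃ M ∈ S.BM, ∃ N ∈ S.BM, T = Delta L M N}

/-- The span of the tensors `Y(L, M, N)` with `L`, `M`, `N` in the Bose-Mesner algebra. -/
def wyeSpan (S : Scheme X d) : Submodule ℂ (X × X × X → ℂ) :=
  Submodule.span ℂ {T | ∃ L ∈ S.BM, ∃ M ∈ S.BM, ∃ N ∈ S.BM, T = Wye L M N}

/-- Exactly triply regular: `Y(𝔸) ⊆ Δ(𝔸)` and `Δ(𝔸) ⊆ Y(𝔸)`. -/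
def ExactlyTriplyRegular (S : Scheme X d) : Prop :=
  S.wyeSpan ≤ S.deltaSpan ∧ S.deltaSpan ≤ S.wyeSpan

/-- `E_0, …, E_d` are the primitive idempotents of the Bose-Mesner algebra (of dimension `d + 1`):
nonzero pairwise orthogonal idempotents in it with sum `I`; with the usual convention
`E_0 = (1/|X|) J`. -/
def IsPrimitiveIdempotents (S : Scheme X d) (E : Fin (d + 1) → Matrix X X ℝ) : Prop :=
  (∀ r, E r ∈ S.BM) ∧ (∀ r, E r ≠ 0) ∧ (∀ r, E r * E r = E r) ∧
    (∀ r s, r ≠ s → E r * E s = 0) ∧ ∑ r, E r = 1 ∧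
    E 0 = fun _ _ => 1 / (Fintype.card X : ℝ)

/-- The numbers `q i j k` are the Krein parameters: `E_i ∘ E_j = (1/|X|) ∑_k q_{ij}^k E_k`. -/
def IsKrein (_S : Scheme X d) (E : Fin (d + 1) → Matrix X X ℝ)
    (q : Fin (d + 1) → Fin (d + 1) → Fin (d + 1) → ℝ) : Prop :=
  ∀ i j, E i ⊙ E j = (1 / (Fintype.card X : ℝ)) • ∑ k, q i j k • E k

/-- The numbers `σ i j k r s t` (for `p_{ij}^k > 0` and `q_{rs}^t > 0`) are the Delta-Wye
parameters: `Δ(A_i, A_j, A_k) = ∑_{q_{rs}^t > 0} σ^{i,j,k}_{r,s,t} Y(E_r, E_s, E_t)` for all `i`,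
`j`, `k` with `p_{ij}^k > 0`. The values of `σ` at other indices are irrelevant. -/
def IsDeltaWye (S : Scheme X d) (E : Fin (d + 1) → Matrix X X ℝ)
    (q : Fin (d + 1) → Fin (d + 1) → Fin (d + 1) → ℝ)
    (σ : Fin (d + 1) → Fin (d + 1) → Fin (d + 1) → Fin (d + 1) → Fin (d + 1) → Fin (d + 1) → ℂ) :
    Prop :=
  ∀ i j k, 0 < S.p i j k → Delta (S.A i) (S.A j) (S.A k) =
    ∑ m ∈ univ.filter (fun m : Fin (d + 1) × Fin (d + 1) × Fin (d + 1) => 0 < q m.1 m.2.1 m.2.2),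
      σ i j k m.1 m.2.1 m.2.2 • Wye (E m.1) (E m.2.1) (E m.2.2)

end Scheme

end Pool.Agent.H90.DeltaWye
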