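import Pool.Agent.H90.DeltaWye.Defs

/-!
# Exactly triply regular schemes: a criterion, and the Delta-Wye parameters as inner products
-/

set_option autoImplicit false

open Finset Matrix

namespace Pool.Agent.H90.DeltaWye

variable {X : Type} [Fintype X] [DecidableEq X] {d : ℕ}

/-- The symmetric bilinear form on tensors. -/
def B (f g : X × X × X → ℂ) : ℂ := ∑ w, f w * g w

omit [DecidableEq X] in
lemma B_wye (L M N L' M' N' : Matrix X X ℝ) :
    B (Wye L M N) (Wye L' M' N') =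
      ((∑ u, ∑ v, (Lᵀ * L') u v * (Mᵀ * M') u v * (Nᵀ * N') u v : ℝ) : ℂ) := by
  unfold B Wye
  push_cast
  simp only [Matrix.mul_apply, Matrix.transpose_apply, Complex.ofReal_sum, Complex.ofReal_mul,
    Fintype.sum_prod_type]
  have h1 : ∀ x y z : X, (∑ u, (L x u : ℂ) * (M y u : ℂ) * (N z u : ℂ)) *
      (∑ v, (L' x v : ℂ) * (M' y v : ℂ) * (N' z v : ℂ)) =
      ∑ u, ∑ v, ((L x u : ℂ) * L' x v) * ((M y u : ℂ) * M' y v) * ((N z u : ℂ) * N' z v) := by
    intro x y z
    rw [sum_mul_sum]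
    exact sum_congr rfl fun u _ => sum_congr rfl fun v _ => by ring
  simp only [h1]
  have h2 : ∀ u v : X, (∑ x, (L x u : ℂ) * L' x v) * (∑ y, (M y u : ℂ) * M' y v) *
      (∑ z, (N z u : ℂ) * N' z v) = ∑ x, ∑ y, ∑ z,
        ((L x u : ℂ) * L' x v) * ((M y u : ℂ) * M' y v) * ((N z u : ℂ) * N' z v) := by
    intro u v
    rw [sum_mul_sum, sum_mul]
    refine sum_congr rfl fun x _ => ?_
    rw [sum_mul_sum]
  simp only [h2]
  -- move the sums over `u`, `v` outside
  have h3 : ∀ F : X → X → X → X → X → ℂ,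
      ∑ x, ∑ y, ∑ z, ∑ u, ∑ v, F x y z u v = ∑ u, ∑ v, ∑ x, ∑ y, ∑ z, F x y z u v := by
    intro F
    have e1 : ∑ x, ∑ y, ∑ z, ∑ u, ∑ v, F x y z u v =
        ∑ w : X × X × X, ∑ m : X × X, F w.1 w.2.1 w.2.2 m.1 m.2 := by
      simp only [Fintype.sum_prod_type]
    have e2 : ∑ u, ∑ v, ∑ x, ∑ y, ∑ z, F x y z u v =
        ∑ m : X × X, ∑ w : X × X × X, F w.1 w.2.1 w.2.2 m.1 m.2 := by
      simp only [Fintype.sum_prod_type]
    rw [e1, e2, sum_comm]
  rw [h3]

namespace Scheme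

/-- A matrix of the Bose-Mesner algebra is a function of the relation. -/
lemma exists_fun_of_mem_BM (S : Scheme X d) {L : Matrix X X ℝ} (hL : L ∈ S.BM) :
    ∃ l : Fin (d + 1) → ℝ, (∀ x y, L x y = l (S.rel x y)) ∧ L = ∑ i, l i • S.A i := by
  obtain ⟨l, rfl⟩ := (Submodule.mem_span_range_iff_exists_fun ℝ).mp hL
  refine ⟨l, fun x y => ?_, rfl⟩
  simp [Matrix.sum_apply, A]

lemma transpose_of_mem_BM (S : Scheme X d) {L : Matrix X X ℝ} (hL : L ∈ S.BM) : Lᵀ = L := by
  obtain ⟨l, hl, -⟩ := S.exists_fun_of_mem_BM hL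
  ext x y
  rw [transpose_apply, hl, hl, S.rel_comm]

lemma delta_A_apply (S : Scheme X d) (i j k : Fin (d + 1)) (x y z : X) :
    Delta (S.A i) (S.A j) (S.A k) (x, y, z) =
      if S.rel x z = i ∧ S.rel x y = j ∧ S.rel y z = k then 1 else 0 := by
  unfold Delta A
  by_cases h1 : S.rel x z = i <;> by_cases h2 : S.rel x y = j <;> by_cases h3 : S.rel y z = k <;>
    simp [h1, h2, h3]

lemma A_mem (S : Scheme X d) (i : Fin (d + 1)) : S.A i ∈ S.BM :=
  Submodule.subset_span ⟨i, rfl⟩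

lemma p_pos (S : Scheme X d) {i j k : Fin (d + 1)} {x y z : X} (h1 : S.rel x z = i)
    (h2 : S.rel x y = j) (h3 : S.rel y z = k) : 0 < S.p i j k := by
  have h := S.card_eq i j k z y (by rw [S.rel_comm, h3])
  rw [← h, card_pos]
  exact ⟨x, by simp [S.rel_comm z x, h1, h2]⟩

/-- A tensor which is a function of the type lies in `Δ(𝔸)`, in fact in the span of the
`Δ(A_i, A_j, A_k)` with `p_{ij}^k > 0`. -/
lemma mem_span_of_const (S : Scheme X d) (f : X × X × X → ℂ)
    (h : ∀ x y z x' y' z', S.rel x z = S.rel x' z' → S.rel x y = S.rel x' y' →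
      S.rel y z = S.rel y' z' → f (x, y, z) = f (x', y', z')) :
    f ∈ Submodule.span ℂ (Set.range fun m :
      {m : Fin (d + 1) × Fin (d + 1) × Fin (d + 1) // 0 < S.p m.1 m.2.1 m.2.2} =>
        Delta (S.A m.1.1) (S.A m.1.2.1) (S.A m.1.2.2)) := by
  classical
  rw [Submodule.mem_span_range_iff_exists_fun]
  have hex : ∀ m : {m : Fin (d + 1) × Fin (d + 1) × Fin (d + 1) // 0 < S.p m.1 m.2.1 m.2.2},
      ∃ c : ℂ, ∀ x y z, S.rel x z = m.1.1 → S.rel x y = m.1.2.1 → S.rel y z = m.1.2.2 →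
        f (x, y, z) = c := by
    rintro ⟨⟨i, j, k⟩, hm⟩
    by_cases hw : ∃ x y z, S.rel x z = i ∧ S.rel x y = j ∧ S.rel y z = k
    · obtain ⟨x', y', z', h1, h2, h3⟩ := hw
      refine ⟨f (x', y', z'), fun x y z g1 g2 g3 => ?_⟩
      exact h _ _ _ _ _ _ (g1.trans h1.symm) (g2.trans h2.symm) (g3.trans h3.symm)
    · refine ⟨0, fun x y z g1 g2 g3 => ?_⟩
      exact absurd ⟨x, y, z, g1, g2, g3⟩ hw
  choose c hc using hex
  refine ⟨c, ?_⟩
  funext ⟨x, y, z⟩
  simp only [Finset.sum_apply, Pi.smul_apply, smul_eq_mul, delta_A_apply]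
  have hp := S.p_pos (x := x) (y := y) (z := z) rfl rfl rfl
  rw [Finset.sum_eq_single (⟨(S.rel x z, S.rel x y, S.rel y z), hp⟩ :
    {m : Fin (d + 1) × Fin (d + 1) × Fin (d + 1) // 0 < S.p m.1 m.2.1 m.2.2})]
  · simp only [and_self, if_true, mul_one]
    exact (hc ⟨(S.rel x z, S.rel x y, S.rel y z), hp⟩ x y z rfl rfl rfl).symm
  · rintro ⟨⟨i, j, k⟩, hm⟩ - hne
    rw [if_neg, mul_zero]
    rintro ⟨h1, h2, h3⟩
    apply hne
    subst h1 h2 h3
    rfl
  · intro h
    exact absurd (mem_univ _) h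

lemma delta_const (S : Scheme X d) {L M N : Matrix X X ℝ} (hL : L ∈ S.BM) (hM : M ∈ S.BM)
    (hN : N ∈ S.BM) (x y z x' y' z' : X) (h1 : S.rel x z = S.rel x' z')
    (h2 : S.rel x y = S.rel x' y') (h3 : S.rel y z = S.rel y' z') :
    Delta L M N (x, y, z) = Delta L M N (x', y', z') := by
  obtain ⟨l, hl, -⟩ := S.exists_fun_of_mem_BM hL
  obtain ⟨m, hm, -⟩ := S.exists_fun_of_mem_BM hM
  obtain ⟨n, hn, -⟩ := S.exists_fun_of_mem_BM hN
  simp only [Delta, hl, hm, hn, h1, h2, h3]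

/-- `Δ(𝔸)` is spanned by the `Δ(A_i, A_j, A_k)` with `p_{ij}^k > 0`. -/
lemma deltaSpan_eq (S : Scheme X d) :
    S.deltaSpan = Submodule.span ℂ (Set.range fun m :
      {m : Fin (d + 1) × Fin (d + 1) × Fin (d + 1) // 0 < S.p m.1 m.2.1 m.2.2} =>
        Delta (S.A m.1.1) (S.A m.1.2.1) (S.A m.1.2.2)) := by
  apply le_antisymm
  · rw [deltaSpan, Submodule.span_le]
    rintro T ⟨L, hL, M, hM, N, hN, rfl⟩
    exact S.mem_span_of_const _ (S.delta_const hL hM hN)
  · rw [deltaSpan]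
    apply Submodule.span_mono
    rintro T ⟨m, rfl⟩
    exact ⟨_, S.A_mem _, _, S.A_mem _, _, S.A_mem _, rfl⟩

/-- The triples of relations from `x`, `y`, `z` to all points. -/
def tri (S : Scheme X d) (x y z : X) : Multiset (Fin (d + 1) × Fin (d + 1) × Fin (d + 1)) :=
  (univ : Finset X).val.map fun u => (S.rel x u, S.rel y u, S.rel z u)

/-- Triple regularity from the constancy of the triple intersection numbers. -/
lemma wye_le_delta (S : Scheme X d)
    (h : ∀ x y z x' y' z', S.rel x z = S.rel x' z' → S.rel x y = S.rel x' y' →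
      S.rel y z = S.rel y' z' → S.tri x y z = S.tri x' y' z') : S.wyeSpan ≤ S.deltaSpan := by
  rw [deltaSpan_eq, wyeSpan, Submodule.span_le]
  rintro T ⟨L, hL, M, hM, N, hN, rfl⟩
  apply S.mem_span_of_const
  intro x y z x' y' z' h1 h2 h3
  obtain ⟨l, hl, -⟩ := S.exists_fun_of_mem_BM hL
  obtain ⟨m, hm, -⟩ := S.exists_fun_of_mem_BM hM
  obtain ⟨n, hn, -⟩ := S.exists_fun_of_mem_BM hN
  have key : ∀ x y z : X, Wye L M N (x, y, z) =
      ((S.tri x y z).map fun t => (l t.1 : ℂ) * (m t.2.1 : ℂ) * (n t.2.2 : ℂ)).sum := by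
    intro x y z
    simp only [Wye, hl, hm, hn, tri, Multiset.map_map, Function.comp_def]
    rfl
  rw [key, key, h x y z x' y' z' h1 h2 h3]

variable (S : Scheme X d) {E : Fin (d + 1) → Matrix X X ℝ}
  {q : Fin (d + 1) → Fin (d + 1) → Fin (d + 1) → ℝ}

lemma trace_pos (hE : S.IsPrimitiveIdempotents E) (t : Fin (d + 1)) : 0 < (E t).trace := by
  obtain ⟨h1, h2, h3, -⟩ := hE
  have hsym := S.transpose_of_mem_BM (h1 t)
  have e : (E t).trace = ∑ u, ∑ v, E t u v ^ 2 := by
    conv_lhs => rw [← h3 t]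
    simp only [Matrix.trace, Matrix.diag_apply, Matrix.mul_apply]
    refine sum_congr rfl fun u _ => sum_congr rfl fun v _ => ?_
    have : E t v u = E t u v := by
      conv_lhs => rw [← hsym]
      rfl
    rw [this, sq]
  have hne : ∃ u v, E t u v ≠ 0 := by
    by_contra hcon
    push Not at hcon
    exact h2 t (by ext u v; exact hcon u v)
  obtain ⟨u, v, huv⟩ := hne
  rw [e]
  have h4 : 0 < E t u v ^ 2 := by positivity
  calc 0 < E t u v ^ 2 := h4
    _ ≤ ∑ v, E t u v ^ 2 := single_le_sum (f := fun v => E t u v ^ 2) (fun _ _ => sq_nonneg _)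
      (mem_univ v)
    _ ≤ ∑ u, ∑ v, E t u v ^ 2 := single_le_sum (f := fun u => ∑ v, E t u v ^ 2)
      (fun _ _ => sum_nonneg fun _ _ => sq_nonneg _) (mem_univ u)

lemma B_wye_same (hE : S.IsPrimitiveIdempotents E) (hq : S.IsKrein E q) (r s t : Fin (d + 1)) :
    B (Wye (E r) (E s) (E t)) (Wye (E r) (E s) (E t)) =
      ((1 / (Fintype.card X : ℝ) * q r s t * (E t).trace : ℝ) : ℂ) := by
  obtain ⟨h1, h2, h3, h4, -⟩ := hE
  rw [B_wye]
  congr 1
  rw [S.transpose_of_mem_BM (h1 r), S.transpose_of_mem_BM (h1 s), S.transpose_of_mem_BM (h1 t),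
    h3, h3, h3]
  have h5 : ∀ u v, E r u v * E s u v = 1 / (Fintype.card X : ℝ) * ∑ k, q r s k * E k u v := by
    intro u v
    have := congrFun (congrFun (hq r s) u) v
    simpa [Matrix.hadamard_apply, Matrix.sum_apply] using this
  simp only [h5]
  have h6 : ∀ k, ∑ u, ∑ v, E k u v * E t u v = if k = t then (E t).trace else 0 := by
    intro k
    have h7 : ∑ u, ∑ v, E k u v * E t u v = (E k * E t).trace := by
      simp only [Matrix.trace, Matrix.diag_apply, Matrix.mul_apply]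
      refine sum_congr rfl fun u _ => sum_congr rfl fun v _ => ?_
      have : E t v u = E t u v := by
        conv_lhs => rw [← S.transpose_of_mem_BM (h1 t)]
        rfl
      rw [this]
    rw [h7]
    split_ifs with h
    · rw [h, h3]
    · rw [h4 k t h, Matrix.trace_zero]
  calc ∑ u, ∑ v, 1 / (Fintype.card X : ℝ) * (∑ k, q r s k * E k u v) * E t u v =
      1 / (Fintype.card X : ℝ) * ∑ k, q r s k * ∑ u, ∑ v, E k u v * E t u v := by
        simp only [mul_sum, sum_mul]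
        rw [sum_comm' (t' := univ) (s' := fun _ => univ) (by simp)]
        have : ∀ v : X, ∑ u : X, ∑ k, 1 / (Fintype.card X : ℝ) * (q r s k * E k u v) * E t u v =
          ∑ k, ∑ u : X, 1 / (Fintype.card X : ℝ) * (q r s k * E k u v) * E t u v :=
          fun v => sum_comm
        simp only [this]
        rw [sum_comm]
        refine sum_congr rfl fun k _ => ?_
        rw [sum_comm]
        exact sum_congr rfl fun u _ => sum_congr rfl fun v _ => by ring
    _ = 1 / (Fintype.card X : ℝ) * q r s t * (E t).trace := by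
        simp only [h6, mul_ite, mul_zero]
        rw [sum_ite_eq' univ t]
        simp only [mem_univ, if_true]
        ring

lemma B_wye_ne (hE : S.IsPrimitiveIdempotents E) {r s t r' s' t' : Fin (d + 1)}
    (h : (r, s, t) ≠ (r', s', t')) :
    B (Wye (E r) (E s) (E t)) (Wye (E r') (E s') (E t')) = 0 := by
  obtain ⟨h1, h2, h3, h4, -⟩ := hE
  rw [B_wye, S.transpose_of_mem_BM (h1 r), S.transpose_of_mem_BM (h1 s),
    S.transpose_of_mem_BM (h1 t)]
  have h5 : r ≠ r' ∨ s ≠ s' ∨ t ≠ t' := by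
    by_contra hcon
    push Not at hcon
    obtain ⟨rfl, rfl, rfl⟩ := hcon
    exact h rfl
  rcases h5 with h5 | h5 | h5
  · rw [h4 _ _ h5]; simp
  · rw [h4 _ _ h5]; simp
  · rw [h4 _ _ h5]; simp

lemma B_wye_pos (hE : S.IsPrimitiveIdempotents E) {r s t : Fin (d + 1)} (hX : 0 < Fintype.card X)
    (h : 0 < q r s t) : 0 < 1 / (Fintype.card X : ℝ) * q r s t * (E t).trace := by
  have := S.trace_pos hE t
  have h2 : (0 : ℝ) < Fintype.card X := by exact_mod_cast hX
  positivity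

include S in
lemma card_pos' : 0 < Fintype.card X := by
  obtain ⟨x, -⟩ := S.rel_nonempty 0
  exact Fintype.card_pos_iff.mpr ⟨x⟩

omit [DecidableEq X] in
lemma B_sum_left {ι : Type} (s : Finset ι) (c : ι → ℂ) (f : ι → X × X × X → ℂ)
    (g : X × X × X → ℂ) : B (∑ m ∈ s, c m • f m) g = ∑ m ∈ s, c m * B (f m) g := by
  unfold B
  simp only [Finset.sum_apply, Pi.smul_apply, smul_eq_mul, sum_mul, mul_sum]
  rw [sum_comm]
  exact sum_congr rfl fun m _ => sum_congr rfl fun w _ => by ring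

/-- The tensors `Y(E_r, E_s, E_t)` with `q_{rs}^t > 0` are linearly independent. -/
lemma wye_linearIndependent (hE : S.IsPrimitiveIdempotents E) (hq : S.IsKrein E q) :
    LinearIndependent ℂ (fun m :
      {m : Fin (d + 1) × Fin (d + 1) × Fin (d + 1) // 0 < q m.1 m.2.1 m.2.2} =>
        Wye (E m.1.1) (E m.1.2.1) (E m.1.2.2)) := by
  classical
  rw [Fintype.linearIndependent_iff]
  intro c hc m
  have h1 : B (∑ m : {m : Fin (d + 1) × Fin (d + 1) × Fin (d + 1) // 0 < q m.1 m.2.1 m.2.2},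
      c m • Wye (E m.1.1) (E m.1.2.1) (E m.1.2.2)) (Wye (E m.1.1) (E m.1.2.1) (E m.1.2.2)) =
      B 0 (Wye (E m.1.1) (E m.1.2.1) (E m.1.2.2)) := by rw [hc]
  rw [B_sum_left] at h1
  have h0 : B (0 : X × X × X → ℂ) (Wye (E m.1.1) (E m.1.2.1) (E m.1.2.2)) = 0 := by
    simp [B]
  rw [h0, sum_eq_single m] at h1
  · rw [S.B_wye_same hE hq] at h1
    rcases mul_eq_zero.mp h1 with h | h
    · exact h
    · exfalso
      have := S.B_wye_pos hE (S.card_pos') m.2
      rw [Complex.ofReal_eq_zero] at h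
      linarith
  · rintro ⟨⟨r, s, t⟩, h⟩ - hne
    rw [S.B_wye_ne hE, mul_zero]
    intro heq
    apply hne
    exact Subtype.ext heq
  · intro h
    exact absurd (mem_univ _) h

/-- A triply regular scheme with as many nonzero Krein parameters as nonzero intersection numbers
is exactly triply regular, and the tensors `Δ(A_i, A_j, A_k)` are combinations of the
`Y(E_r, E_s, E_t)` with `q_{rs}^t > 0`. -/
theorem criterion (hE : S.IsPrimitiveIdempotents E) (hq : S.IsKrein E q)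
    (hw : S.wyeSpan ≤ S.deltaSpan)
    (hcard : Fintype.card {m : Fin (d + 1) × Fin (d + 1) × Fin (d + 1) //
        0 < S.p m.1 m.2.1 m.2.2} ≤
      Nat.card {m : Fin (d + 1) × Fin (d + 1) × Fin (d + 1) // 0 < q m.1 m.2.1 m.2.2}) :
    S.ExactlyTriplyRegular ∧ ∃ σ, S.IsDeltaWye E q σ := by
  classical
  set v := (fun m : {m : Fin (d + 1) × Fin (d + 1) × Fin (d + 1) // 0 < q m.1 m.2.1 m.2.2} =>
        Wye (E m.1.1) (E m.1.2.1) (E m.1.2.2)) with hv
  have hv1 : Submodule.span ℂ (Set.range v) ≤ S.wyeSpan := by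
    rw [wyeSpan]
    apply Submodule.span_mono
    rintro T ⟨m, rfl⟩
    exact ⟨_, hE.1 _, _, hE.1 _, _, hE.1 _, rfl⟩
  have hfin : Module.finrank ℂ S.deltaSpan ≤ Module.finrank ℂ (Submodule.span ℂ (Set.range v)) := by
    rw [finrank_span_eq_card (S.wye_linearIndependent hE hq)]
    rw [Nat.card_eq_fintype_card] at hcard
    refine le_trans ?_ hcard
    rw [deltaSpan_eq]
    exact finrank_range_le_card _
  have heq : Submodule.span ℂ (Set.range v) = S.deltaSpan :=
    Submodule.eq_of_le_of_finrank_le (hv1.trans hw) hfin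
  refine ⟨⟨hw, heq ▸ hv1⟩, ?_⟩
  have hmem : ∀ i j k, ∃ c : {m : Fin (d + 1) × Fin (d + 1) × Fin (d + 1) //
      0 < q m.1 m.2.1 m.2.2} → ℂ, ∑ m, c m • v m = Delta (S.A i) (S.A j) (S.A k) := by
    intro i j k
    have h1 : Delta (S.A i) (S.A j) (S.A k) ∈ Submodule.span ℂ (Set.range v) := by
      rw [heq, deltaSpan]
      exact Submodule.subset_span ⟨_, S.A_mem _, _, S.A_mem _, _, S.A_mem _, rfl⟩
    exact (Submodule.mem_span_range_iff_exists_fun ℂ).mp h1
  choose c hc using hmem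
  refine ⟨fun i j k r s t => if h : 0 < q r s t then c i j k ⟨(r, s, t), h⟩ else 0, ?_⟩
  intro i j k _
  rw [← hc i j k]
  have h2 := Finset.sum_subtype (F := inferInstance)
    (p := fun m : Fin (d + 1) × Fin (d + 1) × Fin (d + 1) =>
      0 < q m.1 m.2.1 m.2.2) (univ.filter (fun m : Fin (d + 1) × Fin (d + 1) × Fin (d + 1) =>
      0 < q m.1 m.2.1 m.2.2)) (by simp)
    (fun m => (if h : 0 < q m.1 m.2.1 m.2.2 then c i j k ⟨(m.1, m.2.1, m.2.2), h⟩ else 0) •
      Wye (E m.1) (E m.2.1) (E m.2.2))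
  rw [h2]
  refine sum_congr rfl fun m _ => ?_
  rw [dif_pos m.2]

/-- The Delta-Wye parameters are determined by inner products. -/
theorem deltaWye_unique (hE : S.IsPrimitiveIdempotents E) (hq : S.IsKrein E q)
    {σ : Fin (d + 1) → Fin (d + 1) → Fin (d + 1) → Fin (d + 1) → Fin (d + 1) → Fin (d + 1) → ℂ}
    (hσ : S.IsDeltaWye E q σ) {i j k r s t : Fin (d + 1)} (hp : 0 < S.p i j k)
    (hqp : 0 < q r s t) :
    B (Delta (S.A i) (S.A j) (S.A k)) (Wye (E r) (E s) (E t)) =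
      σ i j k r s t * ((1 / (Fintype.card X : ℝ) * q r s t * (E t).trace : ℝ) : ℂ) := by
  classical
  rw [hσ i j k hp, B_sum_left, sum_eq_single (r, s, t)]
  · rw [S.B_wye_same hE hq]
  · rintro ⟨r', s', t'⟩ - hne
    rw [S.B_wye_ne hE hne, mul_zero]
  · intro h
    exact absurd (by simpa using hqp) h

end Scheme

end Pool.Agent.H90.DeltaWye
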